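import Mathlib
import Pool.Agent.H17.Perfect

set_option autoImplicit false

namespace Pool.Agent.Results.MP_c73f8e_nt.OnlyTwo

def IsPerfect {G : Type} [AddCommGroup G] (s : ℕ) (A : Finset G) : Prop :=
  Set.BijOn (fun B : Finset G => ∑ b ∈ B, b) {B | B ⊆ A ∧ B.card ≤ s} Set.univ

open Pool.Agent.H17.Perfect in
theorem result (s : ℕ) (hs : 1 ≤ s) (G : Type) [AddCommGroup G] (hG : Nat.card G = 2 ^ (2 * s))
    (A : Finset G) (hA : A.card = 2 * s + 1) (h : IsPerfect s A) :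
    Nonempty (G ≃+ (Fin (2 * s) → ZMod 2)) ∨
      Nonempty (G ≃+ (Fin (2 * s - 2) → ZMod 2) × ZMod 4) := by
  classical
  choose r hr r3 using fun g : G => h.surjOn (Set.mem_univ g)
  have inj : ∀ B C : Finset G, B ⊆ A → B.card ≤ s → C ⊆ A → C.card ≤ s →
      ∑ x ∈ B, x = ∑ x ∈ C, x → B = C := fun B C h1 h2 h3 h4 e => h.injOn ⟨h1, h2⟩ ⟨h3, h4⟩ e
  have hc : ∀ g : G, 2 ^ (2 * s) • g = 0 := fun g => hG ▸ card_nsmul_eq_zero'
  obtain ⟨t, ht, h2⟩ := exists_two hA (fun g => (hr g).1) (fun g => (hr g).2) r3 inj hs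
    (fun e g => by rw [← hc g, e]; abel) fun g e => by
      have h1 := addOrderOf_dvd_of_nsmul_eq_zero (hc g)
      have h3 : addOrderOf g ∣ 3 := addOrderOf_dvd_of_nsmul_eq_zero (by rw [← e]; abel)
      exact AddMonoid.addOrderOf_eq_one_iff.1
        (Nat.eq_one_of_dvd_coprimes (Nat.Coprime.pow_left _ (by norm_num)) h1 h3)
  exact classify G _ hG t h2
    (doubles hA (fun g => (hr g).1) (fun g => (hr g).2) r3 inj hs ht h2)

end Pool.Agent.Results.MP_c73f8e_nt.OnlyTwo
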